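import Mathlib

set_option autoImplicit false

namespace Pool.Agent.Results.MP_f8e91b_al.Counter

/-- Minimal rank of the partial matrix with pattern of knowns `J` and entries `a` on `J`. -/
noncomputable def mr {F m n : Type} [Field F] [Fintype n] (J : Set (m × n)) (a : Matrix m n F) :
    ℕ :=
  sInf {k : ℕ | ∃ B : Matrix m n F, (∀ p ∈ J, B p.1 p.2 = a p.1 p.2) ∧ B.rank = k}

/-- Triangular minimal rank: the maximum of `mr` over the maximal triangular subpatterns. -/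
noncomputable def tmr {F m n : Type} [Field F] [Fintype n] (J : Set (m × n)) (a : Matrix m n F) :
    ℕ :=
  sSup {r : ℕ | ∃ T : Set (m × n),
    Maximal (fun S : Set (m × n) =>
      S ⊆ J ∧ ∀ p ∈ S, ∀ q ∈ S, (p.1, q.2) ∈ S ∨ (q.1, p.2) ∈ S) T ∧ r = mr T a}

/-- `mr` of the partial block matrix `A ⊗ I_b`. -/
noncomputable def mrb {F m n : Type} [Field F] [Fintype n] (J : Set (m × n)) (a : Matrix m n F)
    (b : ℕ) : ℕ :=
  mr {p : (m × Fin b) × (n × Fin b) | (p.1.1, p.2.1) ∈ J}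
    (Matrix.of fun x y => if x.2 = y.2 then a x.1 y.1 else 0)

/-- Fractional minimal rank. -/
noncomputable def fmr {F m n : Type} [Field F] [Fintype n] (J : Set (m × n)) (a : Matrix m n F) :
    ℝ :=
  sInf {x : ℝ | ∃ b : ℕ, 1 ≤ b ∧ x = (mrb J a b : ℝ) / b}

section aux
variable {F : Type} [Field F]

lemma mr_le {m n : Type} [Fintype n] {J : Set (m × n)} {a : Matrix m n F} {k : ℕ}
    (B : Matrix m n F) (hB : ∀ p ∈ J, B p.1 p.2 = a p.1 p.2) (hk : B.rank ≤ k) : mr J a ≤ k :=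
  le_trans (Nat.sInf_le (show B.rank ∈ {k : ℕ | ∃ B : Matrix m n F,
    (∀ p ∈ J, B p.1 p.2 = a p.1 p.2) ∧ B.rank = k} from ⟨B, hB, rfl⟩)) hk

lemma le_mr {m n : Type} [Fintype n] {J : Set (m × n)} {a : Matrix m n F} {k : ℕ}
    (h : ∀ B : Matrix m n F, (∀ p ∈ J, B p.1 p.2 = a p.1 p.2) → k ≤ B.rank) : k ≤ mr J a := by
  refine le_csInf ⟨_, a, fun _ _ => rfl, rfl⟩ ?_
  rintro _ ⟨B, hB, rfl⟩
  exact h B hB

lemma rank_fiber {m κ : Type} [Fintype m] [Fintype κ] [DecidableEq κ] (φ : m → κ) :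
    (Matrix.of fun x y => if φ x = φ y then (1 : F) else 0).rank ≤ Fintype.card κ := by
  have : (Matrix.of fun x y => if φ x = φ y then (1 : F) else 0) =
      (Matrix.of fun x k => if φ x = k then (1 : F) else 0) *
        (Matrix.of fun k y => if k = φ y then (1 : F) else 0) := by
    ext x y
    simp [Matrix.mul_apply]
  rw [this]
  exact (Matrix.rank_mul_le_left _ _).trans (Matrix.rank_le_card_width _)

lemma le_rank {m n ι : Type} [Fintype n] [Fintype ι] [DecidableEq ι] (B : Matrix m n F)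
    (r : ι → m) (c : ι → n) (h : (B.submatrix r c).det ≠ 0) : Fintype.card ι ≤ B.rank := by
  rw [← Matrix.rank_of_isUnit (B.submatrix r c)
    ((Matrix.isUnit_iff_isUnit_det _).2 (isUnit_iff_ne_zero.2 h))]
  exact Matrix.rank_submatrix_le B r c

lemma c5 (M : Matrix (Fin 5) (Fin 5) F) (h1 : ∀ i, M i i = 1)
    (h0 : ∀ i j : Fin 5, i ≠ j → i + 1 ≠ j → j + 1 ≠ i → M i j = 0) :
    ∃ r c : Fin 3 → Fin 5, (M.submatrix r c).det ≠ 0 := by
  have a02 := h0 0 2 (by decide) (by decide) (by decide)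
  have a20 := h0 2 0 (by decide) (by decide) (by decide)
  have a03 := h0 0 3 (by decide) (by decide) (by decide)
  have a30 := h0 3 0 (by decide) (by decide) (by decide)
  have a13 := h0 1 3 (by decide) (by decide) (by decide)
  have a31 := h0 3 1 (by decide) (by decide) (by decide)
  have a14 := h0 1 4 (by decide) (by decide) (by decide)
  have a41 := h0 4 1 (by decide) (by decide) (by decide)
  have a24 := h0 2 4 (by decide) (by decide) (by decide)
  have a42 := h0 4 2 (by decide) (by decide) (by decide)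
  by_cases e1 : M 0 4 = 0
  · exact ⟨![0, 2, 4], ![0, 2, 4], by simp [Matrix.det_fin_three, *]⟩
  by_cases e2 : M 1 0 = 0
  · exact ⟨![0, 1, 3], ![0, 1, 3], by simp [Matrix.det_fin_three, *]⟩
  by_cases e3 : M 2 1 = 0
  · exact ⟨![1, 2, 4], ![1, 2, 4], by simp [Matrix.det_fin_three, *]⟩
  exact ⟨![0, 1, 2], ![4, 0, 1], by simp [Matrix.det_fin_three, *]⟩

def kn (x y : Fin 15) : Bool :=
  (x.1 < 10 && y.1 < 10 && !(x.1 / 5 == y.1 / 5 &&
    ((x.1 + 1) % 5 == y.1 % 5 || (y.1 + 1) % 5 == x.1 % 5))) || (10 ≤ x.1 && 10 ≤ y.1)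

def J : Set (Fin 15 × Fin 15) := {p | kn p.1 p.2 = true}

def e (c : Fin 3) (i : Fin 5) : Fin 15 := ⟨5 * c.1 + i.1, by omega⟩

def φ6 (x : Fin 15) : Fin 6 :=
  if x.1 < 10 then ⟨(3 * (x.1 / 5) + (x.1 % 5) / 2) % 6, by omega⟩ else ⟨x.1 % 5, by omega⟩

def φ10 (x : Fin 15 × Fin 2) : Fin 10 :=
  if x.1.1 < 10 then ⟨(5 * (x.1.1 / 5) + (x.1.1 + 5 - x.2.1) % 5) % 10, by omega⟩
  else ⟨5 * x.2.1 + x.1.1 % 5, by omega⟩

lemma φ6_spec : ∀ x y : Fin 15, kn x y = true → (φ6 x = φ6 y ↔ x = y) := by decide +kernel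

lemma φ10_spec : ∀ (x y : Fin 15) (s t : Fin 2), kn x y = true →
    (φ10 (x, s) = φ10 (y, t) ↔ (x = y ∧ s = t)) := by decide +kernel

lemma kn_blk : ∀ (c : Fin 2) (i j : Fin 5), i + 1 ≠ j → j + 1 ≠ i →
    kn (e c.castSucc i) (e c.castSucc j) = true := by decide +kernel

lemma e_inj : ∀ (c : Fin 3) (i j : Fin 5), e c i = e c j ↔ i = j := by decide +kernel

lemma kn_cross : ∀ i j : Fin 5, kn (e 1 i) (e 0 j) = true ∧ e 1 i ≠ e 0 j := by decide +kernel

lemma kn_top : ∀ i j : Fin 5, kn (e 2 i) (e 2 j) = true := by decide +kernel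

lemma kn_sep : ∀ x y : Fin 15, kn x y = true → (10 ≤ x.1 ↔ 10 ≤ y.1) := by decide +kernel

lemma kn_big : ∀ x y : Fin 15, 10 ≤ x.1 → 10 ≤ y.1 → kn x y = true := by decide +kernel

lemma mr_eq : mr J (1 : Matrix (Fin 15) (Fin 15) F) = 6 := by
  apply le_antisymm
  · refine mr_le _ ?_ ((rank_fiber φ6).trans (by simp))
    intro p hp
    simp [Matrix.one_apply, φ6_spec p.1 p.2 hp]
  · refine le_mr fun B hB => ?_
    have hb : ∀ c : Fin 2, ∃ r s : Fin 3 → Fin 5,
        ((B.submatrix (e c.castSucc) (e c.castSucc)).submatrix r s).det ≠ 0 := by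
      intro c
      apply c5
      · intro i
        have := hB (e c.castSucc i, e c.castSucc i)
          (kn_blk c i i (by revert i; decide) (by revert i; decide))
        simpa using this
      · intro i j h1 h2 h3
        have := hB (e c.castSucc i, e c.castSucc j) (kn_blk c i j h2 h3)
        simpa [Matrix.one_apply, e_inj, h1] using this
    obtain ⟨r0, s0, h0⟩ := hb 0
    obtain ⟨r1, s1, h1⟩ := hb 1
    have := le_rank B (Sum.elim (e 0 ∘ r0) (e 1 ∘ r1)) (Sum.elim (e 0 ∘ s0) (e 1 ∘ s1)) (by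
      have he : B.submatrix (Sum.elim (e 0 ∘ r0) (e 1 ∘ r1)) (Sum.elim (e 0 ∘ s0) (e 1 ∘ s1)) =
          Matrix.fromBlocks ((B.submatrix (e 0) (e 0)).submatrix r0 s0)
            ((B.submatrix (e 0) (e 1)).submatrix r0 s1) 0
            ((B.submatrix (e 1) (e 1)).submatrix r1 s1) := by
        ext (i | i) (j | j)
        · rfl
        · rfl
        · have := hB (e 1 (r1 i), e 0 (s0 j)) (kn_cross (r1 i) (s0 j)).1
          simpa [Matrix.one_apply, (kn_cross (r1 i) (s0 j)).2] using this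
        · rfl
      rw [he, Matrix.det_fromBlocks_zero₂₁]
      exact mul_ne_zero h0 h1)
    simpa using this

lemma mrb_ge (b : ℕ) : 5 * b ≤ mrb J (1 : Matrix (Fin 15) (Fin 15) F) b := by
  refine le_mr fun B hB => ?_
  have := le_rank B (fun x : Fin 5 × Fin b => (e 2 x.1, x.2)) (fun x => (e 2 x.1, x.2)) (by
    have he : B.submatrix (fun x : Fin 5 × Fin b => (e 2 x.1, x.2))
        (fun x : Fin 5 × Fin b => (e 2 x.1, x.2)) = 1 := by
      ext x y
      have := hB ((e 2 x.1, x.2), (e 2 y.1, y.2)) (kn_top x.1 y.1)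
      simp only [Matrix.submatrix_apply, this, Matrix.of_apply, Matrix.one_apply, e_inj,
        Prod.ext_iff]
      by_cases h1 : x.1 = y.1 <;> by_cases h2 : x.2 = y.2 <;> simp [h1, h2]
    rw [he]; simp)
  simpa using this

lemma mrb_two : mrb J (1 : Matrix (Fin 15) (Fin 15) F) 2 ≤ 10 := by
  refine mr_le _ ?_ ((rank_fiber φ10).trans (by simp))
  rintro ⟨⟨x, s⟩, ⟨y, t⟩⟩ hp
  simp only [Matrix.of_apply, Matrix.one_apply, φ10_spec x y s t hp]
  by_cases h1 : x = y <;> by_cases h2 : s = t <;> simp [h1, h2]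

lemma fmr_eq : fmr J (1 : Matrix (Fin 15) (Fin 15) F) = 5 := by
  have lb : ∀ x ∈ {x : ℝ | ∃ b : ℕ, 1 ≤ b ∧
      x = (mrb J (1 : Matrix (Fin 15) (Fin 15) F) b : ℝ) / b}, (5 : ℝ) ≤ x := by
    rintro _ ⟨b, hb, rfl⟩
    have hb' : (0 : ℝ) < b := by exact_mod_cast hb
    rw [le_div_iff₀ hb']
    exact_mod_cast mrb_ge b
  apply le_antisymm
  · refine (csInf_le ⟨5, lb⟩ ⟨2, by norm_num, rfl⟩).trans ?_
    have : (mrb J (1 : Matrix (Fin 15) (Fin 15) F) 2 : ℝ) ≤ 10 := by exact_mod_cast mrb_two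
    push_cast
    linarith
  · exact le_csInf ⟨_, 1, le_rfl, rfl⟩ lb

lemma tri_le (T : Set (Fin 15 × Fin 15)) (hT : T ⊆ J)
    (h : ∀ p ∈ T, ∀ q ∈ T, (p.1, q.2) ∈ T ∨ (q.1, p.2) ∈ T) :
    mr T (1 : Matrix (Fin 15) (Fin 15) F) ≤ 5 := by
  classical
  set D : Finset (Fin 15) := Finset.univ.filter fun x => (x, x) ∈ T with hD
  have hc : D.card ≤ 5 := by
    have : (D ×ˢ (Finset.univ : Finset (Fin 2))).card ≤ (Finset.univ : Finset (Fin 10)).card := by
      refine Finset.card_le_card_of_injOn φ10 (fun _ _ => by simp) ?_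
      rintro ⟨x, s⟩ hx ⟨y, t⟩ hy hxy
      have hx' : (x, x) ∈ T := by simpa [hD] using hx
      have hy' : (y, y) ∈ T := by simpa [hD] using hy
      rcases h _ hx' _ hy' with h1 | h1
      · have := (φ10_spec x y s t (hT h1)).1 hxy
        exact Prod.ext this.1 this.2
      · have := (φ10_spec y x t s (hT h1)).1 hxy.symm
        exact Prod.ext this.1.symm this.2.symm
    simp at this
    omega
  refine mr_le (Matrix.diagonal fun x => if (x, x) ∈ T then (1 : F) else 0) ?_ ?_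
  · rintro ⟨x, y⟩ hp
    by_cases hxy : x = y
    · subst hxy; simp [hp]
    · simp [hxy]
  · refine (Matrix.rank_le_card_of_support_subset _ D ?_).trans hc
    intro x hx
    by_contra hx'
    apply hx
    have : (x, x) ∉ T := by simpa [hD] using hx'
    funext y
    simp [Matrix.row, Matrix.diagonal_apply, this]

lemma tmr_eq : tmr J (1 : Matrix (Fin 15) (Fin 15) F) = 5 := by
  apply IsGreatest.csSup_eq
  constructor
  · have hsub : {p : Fin 15 × Fin 15 | 10 ≤ p.1.1 ∧ 10 ≤ p.2.1} ⊆ J :=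
      fun p hp => kn_big _ _ hp.1 hp.2
    have htri : ∀ p ∈ {p : Fin 15 × Fin 15 | 10 ≤ p.1.1 ∧ 10 ≤ p.2.1},
        ∀ q ∈ {p : Fin 15 × Fin 15 | 10 ≤ p.1.1 ∧ 10 ≤ p.2.1},
        (p.1, q.2) ∈ {p : Fin 15 × Fin 15 | 10 ≤ p.1.1 ∧ 10 ≤ p.2.1} ∨
          (q.1, p.2) ∈ {p : Fin 15 × Fin 15 | 10 ≤ p.1.1 ∧ 10 ≤ p.2.1} :=
      fun p hp q hq => Or.inl ⟨hp.1, hq.2⟩
    refine ⟨{p | 10 ≤ p.1.1 ∧ 10 ≤ p.2.1}, ⟨⟨hsub, htri⟩, ?_⟩, ?_⟩
    · rintro S ⟨hS, hS2⟩ hle p hp
      have h10 : ((10, 10) : Fin 15 × Fin 15) ∈ S := hle ⟨by decide, by decide⟩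
      have hp' := kn_sep _ _ (hS hp)
      rcases hS2 _ hp _ h10 with h1 | h1
      · have := (kn_sep p.1 10 (hS h1)).2 (by decide)
        exact ⟨this, hp'.1 this⟩
      · have := (kn_sep 10 p.2 (hS h1)).1 (by decide)
        exact ⟨hp'.2 this, this⟩
    · apply le_antisymm
      · refine le_mr fun B hB => ?_
        have := le_rank B (e 2) (e 2) (by
          have he : B.submatrix (e 2) (e 2) = 1 := by
            ext x y
            have := hB (e 2 x, e 2 y) ⟨by simp [e], by simp [e]⟩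
            simp only [Matrix.submatrix_apply, this, Matrix.one_apply, e_inj]
          rw [he]; simp)
        simpa using this
      · exact tri_le _ hsub htri
  · rintro _ ⟨T, hT, rfl⟩
    exact tri_le T hT.1.1 hT.1.2

end aux

theorem result (F : Type) [Field F] :
    (∃ (J : Set (Fin 15 × Fin 15)) (a : Matrix (Fin 15) (Fin 15) F),
      tmr J a = 5 ∧ fmr J a = 5 ∧ mr J a = 6) ∧
    ¬ (∀ (m n : ℕ) (J : Set (Fin m × Fin n)) (a : Matrix (Fin m) (Fin n) F),
      (((tmr J a : ℝ) < fmr J a ∧ fmr J a < (mr J a : ℝ)) ∨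
        ((tmr J a : ℝ) = fmr J a ∧ fmr J a = (mr J a : ℝ)))) := by
  refine ⟨⟨J, 1, tmr_eq, fmr_eq, mr_eq⟩, fun h => ?_⟩
  have := h 15 15 J 1
  rw [tmr_eq, fmr_eq, mr_eq] at this
  norm_num at this

end Pool.Agent.Results.MP_f8e91b_al.Counter
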